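import Mathlib

/-!
# The Maker-Breaker domination game: positions `(F, U)` (free vertices, undominated vertices)
-/

set_option autoImplicit false

namespace Pool.Agent.Helper87.MB

section
variable {V : Type} [DecidableEq V] (N : V → Finset V)

/-- Dominator to move: he can dominate everything within his next `k` moves -/
def DW : ℕ → Finset V → Finset V → Prop
  | 0, _, U => U = ∅
  | k + 1, F, U => U = ∅ ∨ ∃ y ∈ F, (U \ N y = ∅ ∨
      ((F.erase y).Nonempty ∧ ∀ x ∈ F.erase y, DW k ((F.erase y).erase x) (U \ N y)))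

/-- Staller to move: Dominator can dominate everything within his next `k` moves -/
def SW (k : ℕ) (F U : Finset V) : Prop := U = ∅ ∨ (F.Nonempty ∧ ∀ x ∈ F, DW N k (F.erase x) U)

theorem DW_zero (F U : Finset V) : DW N 0 F U ↔ U = ∅ := Iff.rfl

theorem DW_succ (k : ℕ) (F U : Finset V) :
    DW N (k + 1) F U ↔ U = ∅ ∨ ∃ y ∈ F, SW N k (F.erase y) (U \ N y) := Iff.rfl

theorem SW_iff (k : ℕ) (F U : Finset V) :
    SW N k F U ↔ U = ∅ ∨ (F.Nonempty ∧ ∀ x ∈ F, DW N k (F.erase x) U) := Iff.rfl
end

/-- the edges of the gadget of helper88 and helper74 (14 vertices, port 9) -/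
def edges : List (ℕ × ℕ) := [(0,7), (0,10), (0,13), (1,11), (1,12), (1,13), (2,6), (2,7), (2,10), (2,11), (3,6), (3,9),
  (3,12), (4,8), (4,12), (5,8), (5,13)]

/-- closed neighbourhoods in the gadget -/
def NH (v : Fin 14) : Finset (Fin 14) :=
  Finset.univ.filter fun w : Fin 14 => w = v ∨ (v.1, w.1) ∈ edges ∨ (w.1, v.1) ∈ edges

/-- C1: Dominator wins the gadget with the port dominated -/
def C1 : Prop := SW NH 7 Finset.univ (Finset.univ.erase 9)
/-- C2: he needs seven moves -/
def C2 : Prop := ¬ SW NH 6 Finset.univ (Finset.univ.erase 9)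
/-- C3: Staller wins the gadget with nothing dominated -/
def C3 : Prop := ¬ SW NH 7 Finset.univ Finset.univ

/-- vertices of the graph: `none` and three copies of the gadget -/
abbrev VG : Type := Option (Fin 3 × Fin 14)

/-- closed neighbourhoods in the graph -/
def NG : VG → Finset VG
  | none => insert none (Finset.univ.image fun i : Fin 3 => some (i, 9))
  | some (i, v) => (if v = 9 then {none} else ∅) ∪ (NH v).image fun w => some (i, w)

/-- COMP: composition -/
def S_COMP : Prop := C1 → C2 → C3 →
  DW NG 22 Finset.univ Finset.univ ∧ ¬ DW NG 21 Finset.univ Finset.univ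

end Pool.Agent.Helper87.MB
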