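import Pool.Agent.Helper87.MB.Comp
import Pool.Agent.T6.H95.MB.Game

/-!
# From graphs to positions
-/

set_option autoImplicit false

namespace Pool.Agent.Helper87.MB

open Finset H95.MB

section
variable {V : Type} [Fintype V] [DecidableEq V]

/-- free vertices -/
def fr (D S : Finset V) : Finset V := univ.filter fun v => v ∉ D ∧ v ∉ S

/-- undominated vertices -/
def un (N : V → Finset V) (D : Finset V) : Finset V := univ.filter fun v => ∀ u ∈ D, v ∉ N u

theorem un_eq {G : SimpleGraph V} {N : V → Finset V} (hN : ∀ u v, v ∈ N u ↔ v = u ∨ G.Adj u v)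
    (D : Finset V) : Dominating G D ↔ un N D = ∅ := by
  rw [eq_empty_iff_forall_notMem]
  unfold un
  refine forall_congr' fun v => ?_
  rw [mem_filter]
  constructor
  · rintro (h | ⟨u, hu, h⟩) ⟨-, h2⟩
    · exact h2 v h ((hN v v).2 (Or.inl rfl))
    · exact h2 u hu ((hN u v).2 (Or.inr h))
  · intro h
    by_contra hcon
    push Not at hcon
    refine h ⟨mem_univ _, fun u hu hv => ?_⟩
    rcases (hN u v).1 hv with e | e
    · rw [e] at hcon
      exact hcon.1 hu
    · exact hcon.2 u hu e

theorem un_insert (N : V → Finset V) (D : Finset V) (y : V) : un N (insert y D) = un N D \ N y := by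
  ext v
  unfold un
  rw [mem_sdiff, mem_filter, mem_filter]
  constructor
  · rintro ⟨-, h⟩
    exact ⟨⟨mem_univ _, fun u hu => h u (mem_insert_of_mem hu)⟩, h y (mem_insert_self _ _)⟩
  · rintro ⟨⟨-, h⟩, h2⟩
    refine ⟨mem_univ _, fun u hu => ?_⟩
    rcases mem_insert.1 hu with rfl | hu
    · exact h2
    · exact h u hu

theorem mem_fr {D S : Finset V} {v : V} : v ∈ fr D S ↔ v ∉ D ∧ v ∉ S := by
  unfold fr
  rw [mem_filter]
  exact and_iff_right (mem_univ _)

theorem fr_D {D S : Finset V} (y : V) : (fr D S).erase y = fr (insert y D) S := by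
  ext v
  rw [mem_erase, mem_fr, mem_fr, mem_insert]
  tauto

theorem fr_S {D S : Finset V} (y : V) : (fr D S).erase y = fr D (insert y S) := by
  ext v
  rw [mem_erase, mem_fr, mem_fr, mem_insert]
  tauto

theorem bridge {G : SimpleGraph V} {N : V → Finset V} (hN : ∀ u v, v ∈ N u ↔ v = u ∨ G.Adj u v)
    (k : ℕ) : ∀ D S : Finset V, WinsIn G k D S ↔ DW N k (fr D S) (un N D) := by
  induction k with
  | zero => intro D S; exact un_eq hN D
  | succ k ih =>
    intro D S
    rw [DW_succ]
    unfold WinsIn
    refine or_congr (un_eq hN D) (exists_congr fun v => ?_)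
    rw [mem_fr, and_assoc, SW_iff, ← un_insert]
    refine and_congr_right fun _ => and_congr_right fun _ => or_congr (un_eq hN _) ?_
    rw [fr_D]
    refine and_congr ?_ ?_
    · constructor
      · rintro ⟨w, h1, h2⟩
        exact ⟨w, mem_fr.2 ⟨h1, h2⟩⟩
      · rintro ⟨w, h⟩
        exact ⟨w, mem_fr.1 h⟩
    · refine forall_congr' fun w => ?_
      rw [mem_fr, fr_S, ← ih]
      constructor
      · intro h h2; exact h h2.1 h2.2
      · intro h h1 h2; exact h ⟨h1, h2⟩

end

/-! ## the graph -/

/-- the graph -/
def GG : SimpleGraph VG where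
  Adj a b := a ≠ b ∧ b ∈ NG a
  symm := by
    constructor
    rintro a b ⟨h1, h2⟩
    refine ⟨h1.symm, ?_⟩
    have key : ∀ v w : Fin 14, w ∈ NH v → v ∈ NH w := by decide
    cases a with
    | none =>
      cases b with
      | none => exact absurd rfl h1
      | some p =>
        obtain ⟨i, w⟩ := p
        have h : w = 9 := (cp_mem_NG_none i w).1 h2
        subst h
        unfold NG
        simp
    | some q =>
      obtain ⟨j, v⟩ := q
      cases b with
      | none =>
        unfold NG at h2
        rw [mem_union, mem_image] at h2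
        rcases h2 with h2 | ⟨x, -, h2⟩
        · split_ifs at h2 with hv
          · rw [hv]
            exact (cp_mem_NG_none j 9).2 rfl
          · exact absurd h2 (notMem_empty _)
        · exact absurd h2 (Option.some_ne_none _)
      | some p =>
        obtain ⟨i, w⟩ := p
        have h : cp i w ∈ NG (cp j v) := h2
        rw [mem_NG_cp] at h
        have h' : cp j v ∈ NG (cp i w) := (mem_NG_cp i j w v).2 ⟨h.1.symm, key v w h.2⟩
        exact h'
  loopless := ⟨fun a h => h.1 rfl⟩

theorem GG_adj (a b : VG) : GG.Adj a b ↔ a ≠ b ∧ b ∈ NG a := Iff.rfl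

theorem self_mem (u : VG) : u ∈ NG u := by
  cases u with
  | none => exact none_mem_NG
  | some p =>
    obtain ⟨i, w⟩ := p
    have key : ∀ v : Fin 14, v ∈ NH v := by decide
    exact (mem_NG_cp i i w w).2 ⟨rfl, key w⟩

theorem hNGG (u v : VG) : v ∈ NG u ↔ v = u ∨ GG.Adj u v := by
  rw [GG_adj]
  constructor
  · intro h
    by_cases e : v = u
    · exact Or.inl e
    · exact Or.inr ⟨fun e' => e e'.symm, h⟩
  · rintro (rfl | ⟨-, h⟩)
    · exact self_mem v
    · exact h

theorem reach (i : Fin 3) (w : Fin 14) : GG.Reachable none (cp i w) := by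
  have hA : ∀ v v' : Fin 14, v ≠ v' → v' ∈ NH v → GG.Reachable (cp i v) (cp i v') := by
    intro v v' h1 h2
    exact SimpleGraph.Adj.reachable ⟨fun e => h1 (cp_inj i e), (mem_NG_cp i i v v').2 ⟨rfl, h2⟩⟩
  have h9 : GG.Reachable none (cp i 9) :=
    SimpleGraph.Adj.reachable ⟨(cp_ne_none i 9).symm, (cp_mem_NG_none i 9).2 rfl⟩
  -- a path of vertices
  have h3 := h9.trans (hA 9 3 (by decide) (by decide))
  have h6 := h3.trans (hA 3 6 (by decide) (by decide))
  have h12 := h3.trans (hA 3 12 (by decide) (by decide))
  have h2 := h6.trans (hA 6 2 (by decide) (by decide))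
  have h7 := h2.trans (hA 2 7 (by decide) (by decide))
  have h10 := h2.trans (hA 2 10 (by decide) (by decide))
  have h11 := h2.trans (hA 2 11 (by decide) (by decide))
  have h0 := h7.trans (hA 7 0 (by decide) (by decide))
  have h13 := h0.trans (hA 0 13 (by decide) (by decide))
  have h1 := h11.trans (hA 11 1 (by decide) (by decide))
  have h4 := h12.trans (hA 12 4 (by decide) (by decide))
  have h8 := h4.trans (hA 4 8 (by decide) (by decide))
  have h5 := h8.trans (hA 8 5 (by decide) (by decide))
  fin_cases w
  · exact h0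
  · exact h1
  · exact h2
  · exact h3
  · exact h4
  · exact h5
  · exact h6
  · exact h7
  · exact h8
  · exact h9
  · exact h10
  · exact h11
  · exact h12
  · exact h13

theorem connected : GG.Connected := by
  rw [SimpleGraph.connected_iff_exists_forall_reachable]
  refine ⟨none, fun y => ?_⟩
  cases y with
  | none => exact SimpleGraph.Reachable.refl _
  | some p => exact reach p.1 p.2

theorem card_VG : Fintype.card VG = 43 := rfl

/-- the value of the game on the graph, from the three facts on the gadget -/
theorem value (h1 : C1) (h2 : C2) (h3 : C3) : WinsIn GG 22 ∅ ∅ ∧ ∀ m, m < 22 → ¬ WinsIn GG m ∅ ∅ := by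
  have e1 : fr (∅ : Finset VG) ∅ = univ := by
    ext v; simp [mem_fr]
  have e2 : un NG (∅ : Finset VG) = univ := by
    ext v; simp [un]
  obtain ⟨ha, hb⟩ := comp h1 h2 h3
  constructor
  · rw [bridge hNGG, e1, e2]; exact ha
  · intro m hm h
    rw [bridge hNGG, e1, e2] at h
    have hmono : ∀ j, DW NG (m + j) univ univ := by
      intro j
      induction j with
      | zero => exact h
      | succ j ih => exact DW_step _ _ _ ih
    have := hmono (21 - m)
    have e : m + (21 - m) = 21 := by omega
    rw [e] at this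
    exact hb this

end Pool.Agent.Helper87.MB
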