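import Pool.Agent.Helper87.MB.Thy

/-!
# Composition: three copies of the gadget
-/

set_option autoImplicit false

namespace Pool.Agent.Helper87.MB

open Finset

/-- the copies -/
def cp (i : Fin 3) (w : Fin 14) : VG := some (i, w)

theorem cp_inj (i : Fin 3) : Function.Injective (cp i) := by
  intro a b h
  have h1 : (i, a) = (i, b) := Option.some.inj h
  exact (Prod.mk.inj h1).2

theorem cp_ne {i j : Fin 3} (h : i ≠ j) (a b : Fin 14) : cp i a ≠ cp j b := by
  intro e
  have h1 : (i, a) = (j, b) := Option.some.inj e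
  exact h (Prod.mk.inj h1).1

theorem cp_ne_none (i : Fin 3) (a : Fin 14) : cp i a ≠ none := Option.some_ne_none _

theorem mem_NG_cp (i j : Fin 3) (v w : Fin 14) : cp j w ∈ NG (cp i v) ↔ i = j ∧ w ∈ NH v := by
  unfold cp NG
  rw [mem_union, mem_image]
  constructor
  · rintro (h | ⟨a, ha, h⟩)
    · split_ifs at h
      · rw [mem_singleton] at h
        exact absurd h (Option.some_ne_none _)
      · exact absurd h (notMem_empty _)
    · have h1 : (i, a) = (j, w) := Option.some.inj h
      have h2 := Prod.mk.inj h1
      rw [← h2.2]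
      exact ⟨h2.1, ha⟩
  · rintro ⟨rfl, h⟩
    exact Or.inr ⟨w, h, rfl⟩

theorem hNG (i : Fin 3) : ∀ w w', cp i w' ∈ NG (cp i w) ↔ w' ∈ NH w := by
  intro w w'
  rw [mem_NG_cp]
  exact and_iff_right rfl

theorem other {i : Fin 3} {F : Finset VG} (hF : none ∉ F) : ∀ y ∈ F, (∀ w, cp i w ≠ y) →
    ∀ w', cp i w' ∉ NG y := by
  intro y hy hne w' h
  cases y with
  | none => exact hF hy
  | some p =>
    obtain ⟨j, v⟩ := p
    have h' : cp i w' ∈ NG (cp j v) := h
    rw [mem_NG_cp] at h'
    exact hne v (by rw [← h'.1]; rfl)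

theorem exists_cp {F : Finset VG} (hF : none ∉ F) {y : VG} (hy : y ∈ F) : ∃ i w, y = cp i w := by
  cases y with
  | none => exact absurd hy hF
  | some p => exact ⟨p.1, p.2, rfl⟩

/-- after a move in the copy `i` the copy `j ≠ i` is unchanged -/
theorem res_other {i j : Fin 3} (h : i ≠ j) (w : Fin 14) (F U : Finset VG) :
    res (cp j) (F.erase (cp i w)) = res (cp j) F ∧ res (cp j) (U \ NG (cp i w)) = res (cp j) U := by
  refine ⟨res_erase' F fun v e => cp_ne h w v e.symm, res_sdiff' U fun v hv => ?_⟩
  rw [mem_NG_cp] at hv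
  exact h hv.1

/-- the sum of tight positions is tight -/
theorem tight (R : ℕ) : ∀ F U : Finset VG, none ∉ F → F.card = 2 * (R + 1) →
    (∀ i, ∃ r, (res (cp i) F).card = 2 * r ∧ (r = 0 ∨ ∃ r', r = r' + 1 ∧
      ¬ SW NH r' (res (cp i) F) (res (cp i) U))) → ¬ SW NG R F U := by
  induction R with
  | zero =>
    intro F U hF hc hT hSW
    obtain ⟨y, hy⟩ : F.Nonempty := card_pos.1 (by omega)
    obtain ⟨i, w, rfl⟩ := exists_cp hF hy
    obtain ⟨r, hr, hr'⟩ := hT i
    have hw : w ∈ res (cp i) F := mem_res.2 hy
    have hpos : 0 < (res (cp i) F).card := card_pos.2 ⟨w, hw⟩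
    rcases hr' with hr' | ⟨r', rfl, hns⟩
    · omega
    · have hU : res (cp i) U ≠ ∅ := fun h => hns (Or.inl h)
      rcases hSW with h | ⟨-, h⟩
      · exact hU (by rw [h, res_nil])
      · have h1 : U = ∅ := h _ hy
        exact hU (by rw [h1, res_nil])
  | succ R ih =>
    intro F U hF hc hT hSW
    obtain ⟨y, hy⟩ : F.Nonempty := card_pos.1 (by omega)
    obtain ⟨i, w, rfl⟩ := exists_cp hF hy
    obtain ⟨r, hr, hr'⟩ := hT i
    have hw : w ∈ res (cp i) F := mem_res.2 hy
    have hpos : 0 < (res (cp i) F).card := card_pos.2 ⟨w, hw⟩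
    rcases hr' with hr' | ⟨r', rfl, hns⟩
    · omega
    · have hU : res (cp i) U ≠ ∅ := fun h => hns (Or.inl h)
      have hU' : U ≠ ∅ := fun h => hU (by rw [h, res_nil])
      obtain ⟨x, hx, hnd⟩ : ∃ x ∈ res (cp i) F, ¬ DW NH r' ((res (cp i) F).erase x) (res (cp i) U) := by
        by_contra hcon
        push Not at hcon
        exact hns (Or.inr ⟨⟨w, hw⟩, hcon⟩)
      rcases hSW with h | ⟨-, h⟩
      · exact hU' h
      have hxF : cp i x ∈ F := mem_res.1 hx
      have hD := h _ hxF
      obtain ⟨F', hF'⟩ : ∃ F', F' = F.erase (cp i x) := ⟨_, rfl⟩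
      rw [← hF'] at hD
      have hF'n : none ∉ F' := by rw [hF']; exact fun e => hF (mem_erase.1 e).2
      have hF'c : F'.card = 2 * (R + 1) + 1 := by
        rw [hF', card_erase_of_mem hxF, hc]
        omega
      have hres : res (cp i) F' = (res (cp i) F).erase x := by rw [hF', res_erase (cp_inj i)]
      have hresj : ∀ j, i ≠ j → res (cp j) F' = res (cp j) F := fun j hj => by
        rw [hF']; exact (res_other hj x F U).1
      have hcard : (res (cp i) F').card = 2 * r' + 1 := by
        rw [hres, card_erase_of_mem hx, hr]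
        omega
      rw [← hres] at hnd
      rcases hD with h | ⟨z, hz, hS⟩
      · exact hU' h
      obtain ⟨j, v, rfl⟩ := exists_cp hF'n hz
      have hF''n : none ∉ F'.erase (cp j v) := fun e => hF'n (mem_erase.1 e).2
      by_cases hij : i = j
      · subst hij
        have hv : v ∈ res (cp i) F' := mem_res.2 hz
        refine ih (F'.erase (cp i v)) (U \ NG (cp i v)) hF''n ?_ ?_ hS
        · rw [card_erase_of_mem hz, hF'c]
          omega
        · intro j
          by_cases hj : i = j
          · subst hj
            have hc2 : (res (cp i) (F'.erase (cp i v))).card = 2 * r' := by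
              rw [res_erase (cp_inj i), card_erase_of_mem hv, hcard]
              omega
            refine ⟨r', hc2, ?_⟩
            cases r' with
            | zero => exact Or.inl rfl
            | succ r'' =>
              refine Or.inr ⟨r'', rfl, fun hs => ?_⟩
              rw [res_erase (cp_inj i), res_sdiff (hNG i)] at hs
              exact hnd (Or.inr ⟨v, hv, hs⟩)
          · rw [(res_other hj v F' U).1, (res_other hj v F' U).2, hresj j hj]
            exact hT j
      · have hp := (proj (cp_inj i) (hNG i) R (F'.erase (cp j v)) (U \ NG (cp j v))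
          (other hF''n)).2 hS
        rw [(res_other (Ne.symm hij) v F' U).1, (res_other (Ne.symm hij) v F' U).2] at hp
        have hs := satS hp
        rw [hcard] at hs
        have e : (2 * r' + 1) / 2 = r' := by omega
        rw [e] at hs
        exact hnd (DW_of_SW hs)

/-- Dominator wins a sum of positions which he wins as the second player -/
theorem dsum (R : ℕ) : ∀ F U : Finset VG, none ∉ F → none ∉ U → F.card = 2 * R →
    (∀ i, ∃ r, (res (cp i) F).card = 2 * r ∧ SW NH r (res (cp i) F) (res (cp i) U)) →
    SW NG R F U := by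
  induction R with
  | zero =>
    intro F U hF hU hc hT
    have hF0 : F = ∅ := card_eq_zero.1 (by omega)
    left
    rw [eq_empty_iff_forall_notMem]
    intro y hy
    obtain ⟨i, w, rfl⟩ := exists_cp hU hy
    obtain ⟨r, hr, hs⟩ := hT i
    rw [hF0, res_nil] at hs
    rcases hs with h | ⟨h, -⟩
    · have : w ∈ res (cp i) U := mem_res.2 hy
      rw [h] at this
      exact notMem_empty _ this
    · exact absurd h (by simp)
  | succ R ih =>
    intro F U hF hU hc hT
    refine Or.inr ⟨card_pos.1 (by omega), fun x hx => ?_⟩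
    obtain ⟨i, w, rfl⟩ := exists_cp hF hx
    obtain ⟨r, hr, hs⟩ := hT i
    have hw : w ∈ res (cp i) F := mem_res.2 hx
    have hpos : 0 < (res (cp i) F).card := card_pos.2 ⟨w, hw⟩
    obtain ⟨r', rfl⟩ : ∃ r', r = r' + 1 := ⟨r - 1, by omega⟩
    -- the reply
    obtain ⟨v, hv, hs'⟩ : ∃ v ∈ (res (cp i) F).erase w,
        SW NH r' (((res (cp i) F).erase w).erase v) (res (cp i) U \ NH v) := by
      rcases hs with h | ⟨-, h⟩
      · obtain ⟨v, hv⟩ : ((res (cp i) F).erase w).Nonempty := by
          apply card_pos.1
          rw [card_erase_of_mem hw]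
          omega
        refine ⟨v, hv, Or.inl ?_⟩
        rw [h, empty_sdiff]
      · rcases h w hw with h | ⟨v, hv, h⟩
        · obtain ⟨v, hv⟩ : ((res (cp i) F).erase w).Nonempty := by
            apply card_pos.1
            rw [card_erase_of_mem hw]
            omega
          refine ⟨v, hv, Or.inl ?_⟩
          rw [h, empty_sdiff]
        · exact ⟨v, hv, h⟩
    have hvF : cp i v ∈ F.erase (cp i w) := by
      have h1 := mem_erase.1 hv
      exact mem_erase.2 ⟨fun e => h1.1 (cp_inj i e), mem_res.1 h1.2⟩
    refine Or.inr ⟨cp i v, hvF, ih _ _ ?_ ?_ ?_ ?_⟩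
    · exact fun e => hF (mem_erase.1 (mem_erase.1 e).2).2
    · exact fun e => hU (mem_sdiff.1 e).1
    · rw [card_erase_of_mem hvF, card_erase_of_mem hx, hc]
      omega
    · intro j
      by_cases hj : i = j
      · subst hj
        refine ⟨r', ?_, ?_⟩
        · rw [res_erase (cp_inj i), res_erase (cp_inj i), card_erase_of_mem hv, card_erase_of_mem hw, hr]
          omega
        · rw [res_erase (cp_inj i), res_erase (cp_inj i), res_sdiff (hNG i)]
          exact hs'
      · rw [(res_other hj v _ U).1, (res_other hj v F U).2, (res_other hj w F U).1]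
        exact hT j

theorem res_univ (i : Fin 3) : res (cp i) univ = univ := by
  ext v
  simp [mem_res]

theorem none_mem_NG : (none : VG) ∈ NG none := by
  unfold NG
  exact mem_insert_self _ _

theorem cp_mem_NG_none (i : Fin 3) (w : Fin 14) : cp i w ∈ NG none ↔ w = 9 := by
  unfold NG cp
  rw [mem_insert, mem_image]
  constructor
  · rintro (h | ⟨j, -, h⟩)
    · exact absurd h (Option.some_ne_none _)
    · have h1 : (j, (9 : Fin 14)) = (i, w) := Option.some.inj h
      exact (Prod.mk.inj h1).2.symm
  · rintro rfl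
    exact Or.inr ⟨i, mem_univ _, rfl⟩

theorem start (i : Fin 3) : res (cp i) (univ.erase none) = univ ∧
    res (cp i) (univ \ NG none) = univ.erase 9 := by
  constructor
  · rw [res_erase' _ (cp_ne_none i), res_univ]
  · ext v
    rw [mem_res, mem_sdiff, cp_mem_NG_none, mem_erase]
    simp

theorem card_start : (univ.erase (none : VG)).card = 42 := by
  rw [card_erase_of_mem (mem_univ _), card_univ]
  rfl

theorem comp : S_COMP := by
  intro h1 h2 h3
  constructor
  · refine Or.inr ⟨none, mem_univ _, dsum 21 _ _ (notMem_erase _ _) (fun h => (mem_sdiff.1 h).2 none_mem_NG)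
      (by rw [card_start]) fun i => ⟨7, ?_, ?_⟩⟩
    · rw [(start i).1]; rfl
    · rw [(start i).1, (start i).2]
      exact h1
  · intro h
    rcases h with h | ⟨y, -, h⟩
    · have : (none : VG) ∈ (∅ : Finset VG) := by rw [← h]; exact mem_univ _
      exact notMem_empty _ this
    · cases y with
      | none =>
        refine tight 20 _ _ (notMem_erase _ _) (by rw [card_start]) (fun i => ⟨7, ?_, Or.inr ⟨6, rfl, ?_⟩⟩) h
        · rw [(start i).1]; rfl
        · rw [(start i).1, (start i).2]
          exact h2
      | some p =>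
        obtain ⟨i, w⟩ := p
        have e0 : (some (i, w) : VG) = cp i w := rfl
        rw [e0] at h
        have hne : ∀ j, i ≠ j → (univ \ NG (cp i w)) ≠ (∅ : Finset VG) := by
          intro j hj he
          have : cp j 0 ∈ (univ \ NG (cp i w)) := by
            rw [mem_sdiff, mem_NG_cp]
            exact ⟨mem_univ _, fun e => hj e.1⟩
          rw [he] at this
          exact notMem_empty _ this
        obtain ⟨j0, hj0⟩ : ∃ j0, i ≠ j0 := by
          by_cases hi : i = 0
          · exact ⟨1, by rw [hi]; decide⟩
          · exact ⟨0, hi⟩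
        rcases h with h | ⟨-, h⟩
        · exact hne j0 hj0 h
        have hnone : (none : VG) ∈ univ.erase (cp i w) := mem_erase.2 ⟨(cp_ne_none i w).symm, mem_univ _⟩
        rcases h none hnone with h | ⟨y, hy, h⟩
        · exact hne j0 hj0 h
        obtain ⟨i', w', rfl⟩ := exists_cp (notMem_erase _ _) hy
        obtain ⟨j, hj, hj'⟩ : ∃ j, i ≠ j ∧ i' ≠ j := by
          have : ∀ a b : Fin 3, ∃ c, a ≠ c ∧ b ≠ c := by decide
          exact this i i'
        have hFn : (none : VG) ∉ ((univ.erase (cp i w)).erase none).erase (cp i' w') := fun e =>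
          notMem_erase _ _ (mem_erase.1 e).2
        have hp := (proj (cp_inj j) (hNG j) 19 _ _ (other hFn)).2 h
        rw [(res_other hj' w' _ univ).1, (res_other hj' w' univ _).2, (res_other hj w univ _).2,
          res_erase' _ (cp_ne_none j), (res_other hj w _ univ).1, res_univ] at hp
        exact h3 (satS hp)

end Pool.Agent.Helper87.MB
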