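import Pool.Agent.Helper87.MB.Bridge
import Pool.Agent.Helper8.MB.C23
import Pool.Agent.H73.MB.C1

/-!
# A connected graph of odd order with `γ_MB = (n + 1) / 2`
-/

set_option autoImplicit false

namespace Pool.Agent.Helper87.MB

open H95.MB

/-- the Maker-Breaker domination number: the least `m` such that Dominator, moving first, can make
the set of his vertices dominating within `m` moves (`⊤` if there is no such `m`) -/
noncomputable def gammaMB {V : Type} [Fintype V] [DecidableEq V] (G : SimpleGraph V) : ℕ∞ :=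
  sInf {k : ℕ∞ | ∃ m : ℕ, k = m ∧ WinsIn G m ∅ ∅}

theorem gammaMB_eq {V : Type} [Fintype V] [DecidableEq V] {G : SimpleGraph V} {n : ℕ}
    (h1 : WinsIn G n ∅ ∅) (h2 : ∀ m, m < n → ¬ WinsIn G m ∅ ∅) : gammaMB G = n := by
  unfold gammaMB
  apply le_antisymm
  · exact sInf_le ⟨n, rfl, h1⟩
  · apply le_sInf
    rintro k ⟨m, rfl, hm⟩
    by_contra hlt
    push Not at hlt
    exact h2 m (by exact_mod_cast hlt) hm

/-- the answer, from the fact C1 -/
theorem final (c1 : C1) : ∃ (V : Type) (_ : Fintype V) (_ : DecidableEq V) (G : SimpleGraph V),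
    G.Connected ∧ Odd (Fintype.card V) ∧ 3 ≤ Fintype.card V ∧
      gammaMB G = ((Fintype.card V + 1) / 2 : ℕ) := by
  obtain ⟨h1, h2⟩ := value c1 Pool.Agent.Helper8.MB.c2 Pool.Agent.Helper8.MB.c3
  refine ⟨VG, inferInstance, inferInstance, GG, connected, ?_, ?_, ?_⟩
  · rw [card_VG]; decide
  · rw [card_VG]; decide
  · rw [card_VG, gammaMB_eq h1 h2]

/-- There is a connected graph of odd order `n ≥ 3` with `γ_MB = (n + 1) / 2` (here `n = 43`). -/
theorem answer : ∃ (V : Type) (_ : Fintype V) (_ : DecidableEq V) (G : SimpleGraph V),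
    G.Connected ∧ Odd (Fintype.card V) ∧ 3 ≤ Fintype.card V ∧
      gammaMB G = ((Fintype.card V + 1) / 2 : ℕ) :=
  final Pool.Agent.H73.MB.c1

end Pool.Agent.Helper87.MB
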