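import Pool.Agent.Helper87.MB.Stm

/-!
# General theory of the positions `(F, U)`
-/

set_option autoImplicit false

namespace Pool.Agent.Helper87.MB

open Finset

section
variable {V : Type} [DecidableEq V] {N : V → Finset V}

theorem DW_nil (k : ℕ) (F : Finset V) : DW N k F ∅ := by
  cases k with
  | zero => exact rfl
  | succ k => exact Or.inl rfl

/-- a vertex of Staller is given back; moving first is not worse than moving second -/
theorem joint (n : ℕ) : ∀ (k : ℕ) (F U : Finset V), F.card ≤ n →
    (SW N k F U → DW N k F U) ∧ (∀ x ∈ F, DW N k (F.erase x) U → DW N k F U) ∧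
      (∀ x ∈ F, SW N k (F.erase x) U → SW N k F U) := by
  induction n with
  | zero =>
    intro k F U hF
    have hF0 : F = ∅ := card_eq_zero.1 (Nat.le_zero.1 hF)
    subst hF0
    refine ⟨?_, fun x hx => absurd hx (notMem_empty x), fun x hx => absurd hx (notMem_empty x)⟩
    rintro (h | ⟨h, -⟩)
    · rw [h]; exact DW_nil k ∅
    · exact absurd h (by simp)
  | succ n ih =>
    intro k F U hF
    have hcard : ∀ x ∈ F, (F.erase x).card ≤ n := by
      intro x hx
      rw [card_erase_of_mem hx]
      omega
    have h2 : ∀ x ∈ F, DW N k (F.erase x) U → DW N k F U := by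
      intro x hx h
      cases k with
      | zero => exact h
      | succ k =>
        rcases h with h | ⟨y, hy, h⟩
        · exact Or.inl h
        · have hy' := mem_erase.1 hy
          refine Or.inr ⟨y, hy'.2, ?_⟩
          have hx' : x ∈ F.erase y := mem_erase.2 ⟨fun e => hy'.1 e.symm, hx⟩
          refine (ih k (F.erase y) (U \ N y) (hcard y hy'.2)).2.2 x hx' ?_
          rw [erase_right_comm]
          exact h
    refine ⟨?_, h2, ?_⟩
    · rintro (h | ⟨⟨x, hx⟩, h⟩)
      · rw [h]; exact DW_nil k F
      · exact h2 x hx (h x hx)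
    · intro x hx h
      by_cases hU : U = ∅
      · exact Or.inl hU
      · refine Or.inr ⟨⟨x, hx⟩, fun z hz => ?_⟩
        by_cases hzx : z = x
        · rw [hzx]
          exact (ih k (F.erase x) U (hcard x hx)).1 h
        · rcases h with h | ⟨-, h⟩
          · exact absurd h hU
          · have hx' : x ∈ F.erase z := mem_erase.2 ⟨fun e => hzx e.symm, hx⟩
            refine (ih k (F.erase z) U (hcard z hz)).2.1 x hx' ?_
            rw [erase_right_comm]
            exact h z (mem_erase.2 ⟨hzx, hz⟩)

theorem DW_of_SW {k : ℕ} {F U : Finset V} (h : SW N k F U) : DW N k F U :=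
  (joint F.card k F U le_rfl).1 h

theorem DW_step (k : ℕ) : ∀ F U : Finset V, DW N k F U → DW N (k + 1) F U := by
  induction k with
  | zero => intro F U h; exact Or.inl h
  | succ k ih =>
    intro F U h
    rcases h with h | ⟨y, hy, h⟩
    · exact Or.inl h
    · refine Or.inr ⟨y, hy, ?_⟩
      rcases h with h | ⟨h1, h2⟩
      · exact Or.inl h
      · exact Or.inr ⟨h1, fun x hx => ih _ _ (h2 x hx)⟩

theorem satD (k : ℕ) : ∀ F U : Finset V, DW N k F U → DW N ((F.card + 1) / 2) F U := by
  induction k with
  | zero =>
    intro F U h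
    have h' : U = ∅ := h
    rw [h']
    exact DW_nil _ F
  | succ k ih =>
    intro F U h
    rcases h with h | ⟨y, hy, h⟩
    · rw [h]; exact DW_nil _ F
    · have hF : 0 < F.card := card_pos.2 ⟨y, hy⟩
      have e : (F.card + 1) / 2 = (F.erase y).card / 2 + 1 := by
        rw [card_erase_of_mem hy]
        omega
      rw [e]
      refine Or.inr ⟨y, hy, ?_⟩
      rcases h with h | ⟨h1, h2⟩
      · exact Or.inl h
      · refine Or.inr ⟨h1, fun x hx => ?_⟩
        have := ih _ _ (h2 x hx)
        rw [card_erase_of_mem hx] at this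
        have h3 : 0 < (F.erase y).card := card_pos.2 h1
        have e2 : ((F.erase y).card - 1 + 1) / 2 = (F.erase y).card / 2 := by
          congr 1
          omega
        rwa [e2] at this

theorem satS {k : ℕ} {F U : Finset V} (h : SW N k F U) : SW N (F.card / 2) F U := by
  rcases h with h | ⟨h1, h2⟩
  · exact Or.inl h
  · refine Or.inr ⟨h1, fun x hx => ?_⟩
    have := satD k _ _ (h2 x hx)
    rw [card_erase_of_mem hx] at this
    have h3 : 0 < F.card := card_pos.2 h1
    have e2 : (F.card - 1 + 1) / 2 = F.card / 2 := by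
      congr 1
      omega
    rwa [e2] at this

theorem DW_noF {k : ℕ} {U : Finset V} (h : DW N k ∅ U) : U = ∅ := by
  cases k with
  | zero => exact h
  | succ k =>
    rcases h with h | ⟨y, hy, -⟩
    · exact h
    · exact absurd hy (notMem_empty y)

end

section
variable {V W : Type} [DecidableEq V] [DecidableEq W] [Fintype W]

/-- the restriction to a component -/
def res (f : W → V) (F : Finset V) : Finset W := univ.filter fun w => f w ∈ F

theorem mem_res {f : W → V} {F : Finset V} {w : W} : w ∈ res f F ↔ f w ∈ F := by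
  simp [res]

theorem res_erase {f : W → V} (hf : Function.Injective f) (F : Finset V) (w : W) :
    res f (F.erase (f w)) = (res f F).erase w := by
  ext v
  rw [mem_res, mem_erase, mem_erase, mem_res]
  exact and_congr_left fun _ => not_congr hf.eq_iff

theorem res_erase' {f : W → V} (F : Finset V) {y : V} (hy : ∀ w, f w ≠ y) :
    res f (F.erase y) = res f F := by
  ext v
  rw [mem_res, mem_erase, mem_res]
  exact and_iff_right (hy v)

theorem res_sdiff {f : W → V} {NV : V → Finset V} {NW : W → Finset W}
    (hN : ∀ w w', f w' ∈ NV (f w) ↔ w' ∈ NW w) (U : Finset V) (w : W) :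
    res f (U \ NV (f w)) = res f U \ NW w := by
  ext v
  rw [mem_res, mem_sdiff, mem_sdiff, mem_res, hN]

theorem res_sdiff' {f : W → V} {NV : V → Finset V} (U : Finset V) {y : V}
    (hy : ∀ w, f w ∉ NV y) : res f (U \ NV y) = res f U := by
  ext v
  rw [mem_res, mem_sdiff, mem_res]
  exact and_iff_left (hy v)

theorem res_nil {f : W → V} : res f (∅ : Finset V) = ∅ := by
  ext v
  simp [mem_res]

theorem proj {f : W → V} (hf : Function.Injective f) {NV : V → Finset V} {NW : W → Finset W}
    (hN : ∀ w w', f w' ∈ NV (f w) ↔ w' ∈ NW w) (k : ℕ) : ∀ F U : Finset V,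
    (∀ y ∈ F, (∀ w, f w ≠ y) → ∀ w', f w' ∉ NV y) →
    (DW NV k F U → DW NW k (res f F) (res f U)) ∧ (SW NV k F U → SW NW k (res f F) (res f U)) := by
  have key : ∀ k : ℕ, (∀ F U : Finset V, (∀ y ∈ F, (∀ w, f w ≠ y) → ∀ w', f w' ∉ NV y) →
      DW NV k F U → DW NW k (res f F) (res f U)) → ∀ F U : Finset V,
      (∀ y ∈ F, (∀ w, f w ≠ y) → ∀ w', f w' ∉ NV y) →
      SW NV k F U → SW NW k (res f F) (res f U) := by
    intro k ih F U hF h
    rcases h with h | ⟨⟨x, hx⟩, h⟩
    · left; rw [h, res_nil]
    · have hx' := ih (F.erase x) U (fun y hy => hF y (mem_erase.1 hy).2) (h x hx)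
      by_cases hU : res f U = ∅
      · exact Or.inl hU
      · refine Or.inr ⟨?_, fun w hw => ?_⟩
        · by_contra hne
          rw [not_nonempty_iff_eq_empty] at hne
          have e : res f (F.erase x) = ∅ := by
            rw [← subset_empty, ← hne]
            intro w hw
            rw [mem_res] at hw ⊢
            exact (mem_erase.1 hw).2
          rw [e] at hx'
          exact hU (DW_noF hx')
        · rw [mem_res] at hw
          have := ih (F.erase (f w)) U (fun y hy => hF y (mem_erase.1 hy).2) (h (f w) hw)
          rwa [res_erase hf] at this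
  have keyD : ∀ F U : Finset V, (∀ y ∈ F, (∀ w, f w ≠ y) → ∀ w', f w' ∉ NV y) →
      DW NV k F U → DW NW k (res f F) (res f U) := by
    induction k with
    | zero =>
      intro F U _ h
      have h' : U = ∅ := h
      rw [h', res_nil]
      exact DW_nil _ _
    | succ k ih =>
      intro F U hF h
      rcases h with h | ⟨y, hy, h⟩
      · rw [h, res_nil]; exact DW_nil _ _
      · have h' := key k ih (F.erase y) (U \ NV y) (fun z hz => hF z (mem_erase.1 hz).2) h
        by_cases hyf : ∃ w, f w = y
        · obtain ⟨w, rfl⟩ := hyf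
          rw [res_erase hf, res_sdiff hN] at h'
          exact Or.inr ⟨w, mem_res.2 hy, h'⟩
        · push Not at hyf
          rw [res_erase' F hyf, res_sdiff' U (hF y hy hyf)] at h'
          exact DW_step k _ _ (DW_of_SW h')
  exact fun F U hF => ⟨keyD F U hF, key k keyD F U hF⟩

end

end Pool.Agent.Helper87.MB
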